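import Mathlib

set_option autoImplicit false
set_option linter.style.haveILetI false

/-! Definitions and first facts for the criterion of distributivity of the lattice of
subformations of a formation of finite groups. -/

namespace Pool.Agent.Helper75.FL

/-- A class of groups. -/
abbrev GroupClass : Type 1 := (G : Type) → [Group G] → Prop

/-- A formation: a class of finite groups, closed under isomorphism and under quotients, that
contains `G / (M ∩ N)` whenever it contains `G / M` and `G / N`. -/
structure IsFormation (F : GroupClass) : Prop where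
  finite : ∀ (G : Type) [Group G], F G → Finite G
  iso : ∀ (G H : Type) [Group G] [Group H], Nonempty (G ≃* H) → F G → F H
  quotient : ∀ (G : Type) [Group G] (N : Subgroup G) [N.Normal], F G → F (G ⧸ N)
  subdirect : ∀ (G : Type) [Group G] [Finite G] (M N : Subgroup G) [M.Normal] [N.Normal],
    F (G ⧸ M) → F (G ⧸ N) → F (G ⧸ (M ⊓ N))

/-- Inclusion of classes of groups. -/
def Sub (X Y : GroupClass) : Prop := ∀ (G : Type) [Group G], X G → Y G

/-- The intersection of two classes of groups. -/
def Meet (X Y : GroupClass) : GroupClass := fun G _ => X G ∧ Y G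

/-- `Join X Y` is the smallest formation containing the classes `X` and `Y` of finite groups: a
group belongs to it if it belongs to every formation that contains `X` and `Y`. -/
def Join (X Y : GroupClass) : GroupClass :=
  fun G _ => ∀ E : GroupClass, IsFormation E → Sub X E → Sub Y E → E G

/-- `form G` is the smallest formation containing the finite group `G`. -/
def form (G : Type) [Group G] : GroupClass :=
  fun H _ => ∀ E : GroupClass, IsFormation E → E G → E H

/-- The lattice of subformations of `F`, in which the meet of `X` and `Y` is their intersection and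
the join is the formation generated by their union, is distributive:
`X ∧ (Y ∨ Z) = (X ∧ Y) ∨ (X ∧ Z)`. -/
def HasDistributiveSubformationLattice (F : GroupClass) : Prop :=
  ∀ X Y Z : GroupClass, IsFormation X → IsFormation Y → IsFormation Z →
    Sub X F → Sub Y F → Sub Z F →
      ∀ (G : Type) [Group G], Meet X (Join Y Z) G ↔ Join (Meet X Y) (Meet X Z) G

/-- `N` is a minimal normal subgroup of `G`. -/
structure IsMinimalNormal {G : Type} [Group G] (N : Subgroup G) : Prop where
  normal : N.Normal
  ne_bot : N ≠ ⊥
  eq : ∀ L : Subgroup G, L.Normal → L ≠ ⊥ → L ≤ N → L = N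

/-- The condition: let `G` be a group of `F` whose socle is the product of two minimal normal
subgroups and lies in the Frattini subgroup of `G`, and let `N₁, N₂, N₃` be three distinct minimal
normal subgroups of `G`. Then `G` belongs to the formation generated by `G / N₁` and by the
intersection of the formations generated by `G / N₂` and by `G / N₃`. -/
def SocleCondition (F : GroupClass) : Prop :=
  ∀ (G : Type) [Group G], F G → ∀ (N₁ N₂ N₃ : Subgroup G) [N₁.Normal] [N₂.Normal] [N₃.Normal],
    IsMinimalNormal N₁ → IsMinimalNormal N₂ → IsMinimalNormal N₃ →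
      N₁ ≠ N₂ → N₁ ≠ N₃ → N₂ ≠ N₃ →
        (∀ L : Subgroup G, IsMinimalNormal L → L ≤ N₂ ⊔ N₃) → N₂ ⊔ N₃ ≤ frattini G →
          Join (form (G ⧸ N₁)) (Meet (form (G ⧸ N₂)) (form (G ⧸ N₃))) G

namespace IsFormation

variable {F : GroupClass}

theorem surj (hF : IsFormation F) {G H : Type} [Group G] [Group H] (h : F G) (f : G →* H)
    (hf : Function.Surjective f) : F H := by
  have h1 : F (G ⧸ f.ker) := hF.quotient G f.ker h
  exact hF.iso _ _ ⟨QuotientGroup.quotientKerEquivOfSurjective f hf⟩ h1

theorem subdirect_hom (hF : IsFormation F) {G A B : Type} [Group G] [Finite G] [Group A] [Group B]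
    (f : G →* A) (g : G →* B) (hf : Function.Surjective f) (hg : Function.Surjective g)
    (hA : F A) (hB : F B) (h : ∀ x, f x = 1 → g x = 1 → x = 1) : F G := by
  have h1 : F (G ⧸ f.ker) :=
    hF.iso _ _ ⟨(QuotientGroup.quotientKerEquivOfSurjective f hf).symm⟩ hA
  have h2 : F (G ⧸ g.ker) :=
    hF.iso _ _ ⟨(QuotientGroup.quotientKerEquivOfSurjective g hg).symm⟩ hB
  have h3 := hF.subdirect G f.ker g.ker h1 h2
  have h4 : f.ker ⊓ g.ker = ⊥ := by
    rw [eq_bot_iff]
    intro x hx
    exact Subgroup.mem_bot.2 (h x (MonoidHom.mem_ker.1 hx.1) (MonoidHom.mem_ker.1 hx.2))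
  let φ : (G ⧸ (f.ker ⊓ g.ker)) →* G :=
    QuotientGroup.lift (f.ker ⊓ g.ker) (MonoidHom.id G) (fun x hx => by
      rw [h4, Subgroup.mem_bot] at hx
      simpa using hx)
  exact hF.surj h3 φ (fun x => ⟨(x : G ⧸ (f.ker ⊓ g.ker)), rfl⟩)

theorem trivial_mem (hF : IsFormation F) {K : Type} [Group K] (hK : F K) {G : Type} [Group G]
    (h : ∀ x : G, x = 1) : F G := by
  refine hF.surj hK (1 : K →* G) (fun x => ⟨1, ?_⟩)
  rw [h x]
  rfl

end IsFormation

theorem isFormation_finite : IsFormation (fun G _ => Finite G) where
  finite := fun _ _ h => h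
  iso := fun _ _ _ _ ⟨e⟩ h => by
    haveI := h
    exact Finite.of_equiv _ e.toEquiv
  quotient := fun G _ N _ h => by
    haveI : Finite G := h
    exact (inferInstance : Finite (G ⧸ N))
  subdirect := fun G _ hG M N _ _ _ _ => by
    haveI : Finite G := hG
    exact (inferInstance : Finite (G ⧸ (M ⊓ N)))

theorem form_finite {G H : Type} [Group G] [Group H] [Finite G] (h : form G H) : Finite H :=
  h _ isFormation_finite ‹Finite G›

theorem self_mem_form (G : Type) [Group G] : form G G := fun _ _ h => h

theorem form_isFormation (G : Type) [Group G] [Finite G] : IsFormation (form G) where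
  finite := fun _ _ h => form_finite h
  iso := fun A B _ _ e h F hF hG => hF.iso A B e (h F hF hG)
  quotient := fun A _ N _ h F hF hG => hF.quotient A N (h F hF hG)
  subdirect := fun A _ _ M N _ _ h1 h2 F hF hG => hF.subdirect A M N (h1 F hF hG) (h2 F hF hG)

theorem form_le {F : GroupClass} (hF : IsFormation F) {G : Type} [Group G] (hG : F G) :
    Sub (form G) F := fun _ _ h => h F hF hG

theorem join_isFormation {X Y F : GroupClass} (hF : IsFormation F) (hX : Sub X F) (hY : Sub Y F) :
    IsFormation (Join X Y) where
  finite := fun _ _ h => hF.finite _ (h F hF hX hY)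
  iso := fun A B _ _ e h E hE h1 h2 => hE.iso A B e (h E hE h1 h2)
  quotient := fun A _ N _ h E hE h1 h2 => hE.quotient A N (h E hE h1 h2)
  subdirect := fun A _ _ M N _ _ h h' E hE h1 h2 =>
    hE.subdirect A M N (h E hE h1 h2) (h' E hE h1 h2)

theorem meet_isFormation {X Y : GroupClass} (hX : IsFormation X) (hY : IsFormation Y) :
    IsFormation (Meet X Y) where
  finite := fun _ _ h => hX.finite _ h.1
  iso := fun A B _ _ e h => ⟨hX.iso A B e h.1, hY.iso A B e h.2⟩
  quotient := fun A _ N _ h => ⟨hX.quotient A N h.1, hY.quotient A N h.2⟩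
  subdirect := fun A _ _ M N _ _ h h' =>
    ⟨hX.subdirect A M N h.1 h'.1, hY.subdirect A M N h.2 h'.2⟩

theorem join_le {X Y E : GroupClass} (hE : IsFormation E) (hX : Sub X E) (hY : Sub Y E) :
    Sub (Join X Y) E := fun _ _ h => h E hE hX hY

theorem le_join_left (X Y : GroupClass) : Sub X (Join X Y) := fun _ _ h _ _ h1 _ => h1 _ h

theorem le_join_right (X Y : GroupClass) : Sub Y (Join X Y) := fun _ _ h _ _ _ h2 => h2 _ h

theorem Sub.trans {X Y Z : GroupClass} (h : Sub X Y) (h' : Sub Y Z) : Sub X Z :=
  fun _ _ hx => h' _ (h _ hx)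

theorem join_mono {X Y X' Y' : GroupClass} (h : Sub X X') (h' : Sub Y Y') :
    Sub (Join X Y) (Join X' Y') :=
  fun _ _ hG E hE h1 h2 => hG E hE (h.trans h1) (h'.trans h2)

end Pool.Agent.Helper75.FL
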