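import Pool.Agent.Helper75.FL.Defs

set_option autoImplicit false
set_option linter.style.haveILetI false

/-! Definitions and first facts for the criterion of distributivity of the lattice of
subformations of a formation of finite groups. -/

namespace Pool.Agent.Helper75.FL



theorem disj_of_minimal {G : Type} [Group G] {M N : Subgroup G} (hM : IsMinimalNormal M)
    (hN : IsMinimalNormal N) (h : M ≠ N) : M ⊓ N = ⊥ := by
  by_contra h0
  haveI := hM.normal
  haveI := hN.normal
  have h1 : M ⊓ N = M := hM.eq (M ⊓ N) inferInstance h0 inf_le_left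
  have h2 : M ⊓ N = N := hN.eq (M ⊓ N) inferInstance h0 inf_le_right
  exact h (h1.symm.trans h2)

theorem mem_join_of_disj {G : Type} [Group G] [Finite G] (M N : Subgroup G) [M.Normal] [N.Normal]
    (h : M ⊓ N = ⊥) : Join (form (G ⧸ M)) (form (G ⧸ N)) G := by
  intro E hE h1 h2
  refine hE.subdirect_hom (QuotientGroup.mk' M) (QuotientGroup.mk' N)
    (QuotientGroup.mk'_surjective M) (QuotientGroup.mk'_surjective N)
    (h1 _ (self_mem_form _)) (h2 _ (self_mem_form _)) ?_
  intro x hx hy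
  have hx' : x ∈ M := by
    have : x ∈ (QuotientGroup.mk' M).ker := MonoidHom.mem_ker.2 hx
    rwa [QuotientGroup.ker_mk'] at this
  have hy' : x ∈ N := by
    have : x ∈ (QuotientGroup.mk' N).ker := MonoidHom.mem_ker.2 hy
    rwa [QuotientGroup.ker_mk'] at this
  have : x ∈ M ⊓ N := ⟨hx', hy'⟩
  rw [h] at this
  exact Subgroup.mem_bot.1 this

theorem cond_of_distributive {F : GroupClass} (hF : IsFormation F)
    (h : HasDistributiveSubformationLattice F) : SocleCondition F := by
  intro G _ hG N₁ N₂ N₃ _ _ _ m1 m2 m3 h12 h13 h23 _ _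
  haveI : Finite G := hF.finite G hG
  have f1 : IsFormation (form (G ⧸ N₁)) := form_isFormation _
  have f2 : IsFormation (form (G ⧸ N₂)) := form_isFormation _
  have f3 : IsFormation (form (G ⧸ N₃)) := form_isFormation _
  have s1 : Sub (form (G ⧸ N₁)) F := form_le hF (hF.quotient G N₁ hG)
  have s2 : Sub (form (G ⧸ N₂)) F := form_le hF (hF.quotient G N₂ hG)
  have s3 : Sub (form (G ⧸ N₃)) F := form_le hF (hF.quotient G N₃ hG)
  have fX : IsFormation (Join (form (G ⧸ N₁)) (form (G ⧸ N₂))) := join_isFormation hF s1 s2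
  have sX : Sub (Join (form (G ⧸ N₁)) (form (G ⧸ N₂))) F := join_le hF s1 s2
  have sM : Sub (Meet (form (G ⧸ N₂)) (form (G ⧸ N₃))) F := fun K _ hK => s2 K hK.1
  have fT : IsFormation (Join (form (G ⧸ N₁)) (Meet (form (G ⧸ N₂)) (form (G ⧸ N₃)))) :=
    join_isFormation hF s1 sM
  have g12 : Join (form (G ⧸ N₁)) (form (G ⧸ N₂)) G :=
    mem_join_of_disj N₁ N₂ (disj_of_minimal m1 m2 h12)
  have g13 : Join (form (G ⧸ N₁)) (form (G ⧸ N₃)) G :=
    mem_join_of_disj N₁ N₃ (disj_of_minimal m1 m3 h13)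
  have k1 := (h _ _ _ fX f1 f3 sX s1 s3 G).1 ⟨g12, g13⟩
  refine join_le fT ?_ ?_ G k1
  · intro K _ hK
    exact le_join_left _ _ K hK.2
  · intro K _ hK
    have k2 := (h _ _ _ f3 f1 f2 s3 s1 s2 K).1 ⟨hK.2, hK.1⟩
    refine join_mono ?_ ?_ K k2
    · intro L _ hL
      exact hL.2
    · intro L _ hL
      exact ⟨hL.2, hL.1⟩

end Pool.Agent.Helper75.FL
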