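import Pool.Agent.Helper75.FL.Defs

set_option autoImplicit false
set_option linter.style.haveILetI false

/-! Definitions and first facts for the criterion of distributivity of the lattice of
subformations of a formation of finite groups. -/

namespace Pool.Agent.Helper75.FL



theorem gc_mem_sup {H : Type} [Group H] {A T : Subgroup H} (hT : T.Normal) {x : H} :
    x ∈ A ⊔ T ↔ ∃ a ∈ A, ∃ t ∈ T, a * t = x := by
  haveI := hT
  rw [← SetLike.mem_coe, Subgroup.mul_normal A T, Set.mem_mul]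
  rfl

theorem gc_step0 {H D : Type} [Group H] [Group D] (φ : H →* D)
    (A B : Subgroup H) (hA : A.Normal) (hAB : ∀ x ∈ A, x ∈ B → x = 1)
    (hT : ∀ T : Subgroup H, T.Normal → T ≤ φ.ker → (A ⊔ T) ⊓ (B ⊔ T) ≤ T → T = ⊥) :
    ∀ x ∈ A, φ x = 1 → x = 1 := by
  haveI := hA
  have hn : (φ.ker ⊓ A).Normal := inferInstance
  have h := hT (φ.ker ⊓ A) hn inf_le_left (by
    rintro x ⟨hx1, hx2⟩
    have hx1' : x ∈ A := by
      have : A ⊔ φ.ker ⊓ A = A := sup_eq_left.2 inf_le_right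
      rw [← this]
      exact hx1
    obtain ⟨b, hb, t, ht, rfl⟩ := (gc_mem_sup hn).1 hx2
    have hbA : b ∈ A := by
      have := A.mul_mem hx1' (A.inv_mem ht.2)
      simpa using this
    rw [hAB b hbA hb, one_mul]
    exact ht)
  intro x hx hx1
  have : x ∈ φ.ker ⊓ A := ⟨MonoidHom.mem_ker.2 hx1, hx⟩
  rw [h] at this
  exact Subgroup.mem_bot.1 this

theorem gc_ne_bot {H : Type} [Group H] {N : Subgroup H} (h : N ≠ ⊥) : ∃ n ∈ N, n ≠ 1 := by
  by_contra hc
  push Not at hc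
  exact h ((Subgroup.eq_bot_iff_forall N).2 hc)

theorem gc_min {H D : Type} [Group H] [Group D] (φ : H →* D)
    (hφ : Function.Surjective φ) (N : Subgroup D) (hN1 : N ≠ ⊥)
    (hmon : ∀ L : Subgroup D, L.Normal → L ≠ ⊥ → N ≤ L)
    (A : Subgroup H) (hA : A.Normal) (hAN : A.map φ = N) (hKA : ∀ x ∈ A, φ x = 1 → x = 1) :
    IsMinimalNormal A := by
  refine ⟨hA, ?_, ?_⟩
  · rintro rfl
    apply hN1
    rw [← hAN, Subgroup.map_bot]
  · intro L hL hL1 hLA
    have h1 : (L.map φ).Normal := hL.map φ hφ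
    have h2 : L.map φ ≠ ⊥ := by
      intro h
      apply hL1
      rw [Subgroup.eq_bot_iff_forall]
      intro x hx
      apply hKA x (hLA hx)
      have : φ x ∈ L.map φ := Subgroup.mem_map_of_mem φ hx
      rw [h] at this
      exact Subgroup.mem_bot.1 this
    have h3 := hmon _ h1 h2
    apply le_antisymm hLA
    intro a ha
    have h4 : φ a ∈ N := by rw [← hAN]; exact Subgroup.mem_map_of_mem φ ha
    obtain ⟨l, hl, hla⟩ := h3 h4
    have h5 : a * l⁻¹ = 1 := by
      apply hKA _ (A.mul_mem ha (A.inv_mem (hLA hl)))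
      rw [map_mul, map_inv, hla, mul_inv_cancel]
    rw [mul_inv_eq_one.1 h5]
    exact hl

/-- The group theoretical part of the configuration. -/
theorem group_config {H D : Type} [Group H] [Finite H] [Group D] (φ : H →* D)
    (hφ : Function.Surjective φ) (N : Subgroup D) (hN : N.Normal) (hN1 : N ≠ ⊥)
    (hmon : ∀ L : Subgroup D, L.Normal → L ≠ ⊥ → N ≤ L)
    (A B : Subgroup H) (hA : A.Normal) (hB : B.Normal) (hAB : A ⊓ B = ⊥)
    (hAN : A.map φ = N) (hBN : B.map φ = N)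
    (hT : ∀ T : Subgroup H, T.Normal → T ≤ φ.ker → (A ⊔ T) ⊓ (B ⊔ T) ≤ T → T = ⊥) :
    IsMinimalNormal A ∧ IsMinimalNormal B ∧ IsMinimalNormal (φ.ker ⊓ (A ⊔ B)) ∧ A ≠ B ∧
      φ.ker ⊓ (A ⊔ B) ≠ A ∧ φ.ker ⊓ (A ⊔ B) ≠ B ∧
        ∀ L : Subgroup H, IsMinimalNormal L → L ≤ A ⊔ B := by
  haveI := hA
  haveI := hB
  have hAB' : ∀ x ∈ A, x ∈ B → x = 1 := by
    intro x h1 h2
    have : x ∈ A ⊓ B := ⟨h1, h2⟩
    rw [hAB] at this
    exact Subgroup.mem_bot.1 this
  have hKA : ∀ x ∈ A, φ x = 1 → x = 1 := gc_step0 φ A B hA hAB' hT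
  have hKB : ∀ x ∈ B, φ x = 1 → x = 1 :=
    gc_step0 φ B A hB (fun x h1 h2 => hAB' x h2 h1) (fun T h1 h2 h3 => hT T h1 h2 (by
      rw [inf_comm]; exact h3))
  have mA := gc_min φ hφ N hN1 hmon A hA hAN hKA
  have mB := gc_min φ hφ N hN1 hmon B hB hBN hKB
  have hnAB : (A ⊔ B).Normal := inferInstance
  have hnN1 : (φ.ker ⊓ (A ⊔ B)).Normal := inferInstance
  obtain ⟨n, hn, hn1⟩ := gc_ne_bot hN1
  obtain ⟨a0, ha0, hna⟩ : ∃ a ∈ A, φ a = n := by rw [← hAN] at hn; exact hn
  obtain ⟨b0, hb0, hnb⟩ : ∃ b ∈ B, φ b = n := by rw [← hBN] at hn; exact hn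
  have mN : IsMinimalNormal (φ.ker ⊓ (A ⊔ B)) := by
    refine ⟨hnN1, ?_, ?_⟩
    · intro h
      have h1 : a0 * b0⁻¹ ∈ φ.ker ⊓ (A ⊔ B) := by
        refine ⟨?_, ?_⟩
        · change a0 * b0⁻¹ ∈ φ.ker
          rw [MonoidHom.mem_ker, map_mul, map_inv, hna, hnb, mul_inv_cancel]
        · exact Subgroup.mul_mem _ (Subgroup.mem_sup_left ha0)
            (Subgroup.inv_mem _ (Subgroup.mem_sup_right hb0))
      rw [h, Subgroup.mem_bot, mul_inv_eq_one] at h1
      apply hn1
      rw [← hna, hAB' a0 ha0 (by rw [h1]; exact hb0), map_one]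
    · intro L hL hL1 hLN
      obtain ⟨l, hl, hl1⟩ := gc_ne_bot hL1
      obtain ⟨a, ha, b, hb, hab⟩ := (gc_mem_sup hB).1 (hLN hl).2
      have hlK : φ l = 1 := MonoidHom.mem_ker.1 (hLN hl).1
      have hb1 : b ≠ 1 := by
        rintro rfl
        apply hl1
        rw [mul_one] at hab
        apply hKA l _ hlK
        rw [← hab]; exact ha
      have hnAL : (A ⊔ L).Normal := inferInstance
      have h1 : (B ⊓ (A ⊔ L)).Normal := inferInstance
      have h2 : B ⊓ (A ⊔ L) = B := by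
        apply mB.eq _ h1 _ inf_le_left
        intro h
        apply hb1
        have : b ∈ B ⊓ (A ⊔ L) := by
          refine ⟨hb, ?_⟩
          have h3 : b = a⁻¹ * l := by rw [← hab]; group
          rw [h3]
          exact Subgroup.mul_mem _ (Subgroup.inv_mem _ (Subgroup.mem_sup_left ha))
            (Subgroup.mem_sup_right hl)
        rw [h] at this
        exact Subgroup.mem_bot.1 this
      have h3 : A ⊔ B ≤ A ⊔ L := sup_le le_sup_left (by rw [← h2]; exact inf_le_right)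
      apply le_antisymm hLN
      rintro x ⟨hxK, hxAB⟩
      obtain ⟨a', ha', l', hl', hx⟩ := (gc_mem_sup hL).1 (h3 hxAB)
      have h4 : φ l' = 1 := MonoidHom.mem_ker.1 (hLN hl').1
      have h5 : φ a' = 1 := by
        have h6 : φ x = 1 := MonoidHom.mem_ker.1 hxK
        rw [← hx, map_mul, h4, mul_one] at h6
        exact h6
      rw [← hx, hKA a' ha' h5, one_mul]
      exact hl'
  refine ⟨mA, mB, mN, ?_, ?_, ?_, ?_⟩
  · rintro rfl
    apply mA.ne_bot
    rw [← hAB, inf_idem]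
  · intro h
    apply mA.ne_bot
    rw [Subgroup.eq_bot_iff_forall]
    intro x hx
    have h1 : x ∈ φ.ker ⊓ (A ⊔ B) := by rw [h]; exact hx
    exact hKA x hx (MonoidHom.mem_ker.1 h1.1)
  · intro h
    apply mB.ne_bot
    rw [Subgroup.eq_bot_iff_forall]
    intro x hx
    have h1 : x ∈ φ.ker ⊓ (A ⊔ B) := by rw [h]; exact hx
    exact hKB x hx (MonoidHom.mem_ker.1 h1.1)
  · intro L mL
    by_contra hLn
    haveI := mL.normal
    have hLAB : L ⊓ (A ⊔ B) = ⊥ := by
      by_contra h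
      apply hLn
      have h1 := mL.eq (L ⊓ (A ⊔ B)) inferInstance h inf_le_left
      rw [← h1]
      exact inf_le_right
    have hLAB' : ∀ x ∈ L, x ∈ A ⊔ B → x = 1 := by
      intro x h1 h2
      have : x ∈ L ⊓ (A ⊔ B) := ⟨h1, h2⟩
      rw [hLAB] at this
      exact Subgroup.mem_bot.1 this
    have claim : ∀ T : Subgroup H, T.Normal → T ≤ φ.ker → (∀ x ∈ T, x ∈ A ⊔ B → x = 1) →
        T = ⊥ := by
      intro T hTn hTK hTAB
      apply hT T hTn hTK
      rintro x ⟨hx1, hx2⟩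
      obtain ⟨a, ha, t, ht, h1⟩ := (gc_mem_sup hTn).1 hx1
      obtain ⟨b, hb, t', ht', h2⟩ := (gc_mem_sup hTn).1 hx2
      have h3 : b⁻¹ * a = t' * t⁻¹ := by
        have : a * t = b * t' := by rw [h1, h2]
        have h4 : a = b * t' * t⁻¹ := by rw [← this]; group
        rw [h4]; group
      have h4 : b⁻¹ * a = 1 := by
        apply hTAB
        · rw [h3]; exact T.mul_mem ht' (T.inv_mem ht)
        · exact Subgroup.mul_mem _ (Subgroup.inv_mem _ (Subgroup.mem_sup_right hb))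
            (Subgroup.mem_sup_left ha)
      have h5 : b = a := inv_mul_eq_one.1 h4
      rw [← h1, hAB' a ha (by rw [← h5]; exact hb), one_mul]
      exact ht
    by_cases hLK : L ≤ φ.ker
    · exact mL.ne_bot (claim L mL.normal hLK hLAB')
    · have h1 : (L.map φ).Normal := mL.normal.map φ hφ
      have h2 : L.map φ ≠ ⊥ := by
        intro h
        apply hLK
        intro x hx
        have : φ x ∈ L.map φ := Subgroup.mem_map_of_mem φ hx
        rw [h] at this
        exact MonoidHom.mem_ker.2 (Subgroup.mem_bot.1 this)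
      obtain ⟨l, hl, hln⟩ := hmon _ h1 h2 hn
      have hTn : (φ.ker ⊓ (A ⊔ L)).Normal := inferInstance
      have h3 := claim (φ.ker ⊓ (A ⊔ L)) hTn inf_le_left (by
        rintro x ⟨hxK, hxAL⟩ hxAB
        obtain ⟨a', ha', l', hl', hx⟩ := (gc_mem_sup mL.normal).1 hxAL
        have h4 : l' = 1 := by
          apply hLAB' l' hl'
          have h5 : l' = a'⁻¹ * x := by rw [← hx]; group
          rw [h5]
          exact Subgroup.mul_mem _ (Subgroup.inv_mem _ (Subgroup.mem_sup_left ha')) hxAB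
        rw [h4, mul_one] at hx
        apply hKA x _ (MonoidHom.mem_ker.1 hxK)
        rw [← hx]; exact ha')
      have h4 : a0 * l⁻¹ ∈ φ.ker ⊓ (A ⊔ L) := by
        refine ⟨?_, ?_⟩
        · change a0 * l⁻¹ ∈ φ.ker
          rw [MonoidHom.mem_ker, map_mul, map_inv, hna, hln, mul_inv_cancel]
        · exact Subgroup.mul_mem _ (Subgroup.mem_sup_left ha0)
            (Subgroup.inv_mem _ (Subgroup.mem_sup_right hl))
      rw [h3, Subgroup.mem_bot, mul_inv_eq_one] at h4
      apply hn1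
      rw [← hln, hLAB' l hl (by rw [← h4]; exact Subgroup.mem_sup_left ha0), map_one]

end Pool.Agent.Helper75.FL
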