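import Pool.Agent.Helper75.FL.Defs

set_option autoImplicit false
set_option linter.style.haveILetI false

/-! Definitions and first facts for the criterion of distributivity of the lattice of
subformations of a formation of finite groups. -/

namespace Pool.Agent.Helper75.FL



/-- description by homomorphisms -/
def Desc (Y Z : GroupClass) : GroupClass := fun G _ =>
  ∃ (H : Type) (_ : Group H) (_ : Finite H) (P : Type) (_ : Group P) (R : Type) (_ : Group R)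
    (α : H →* P) (β : H →* R) (φ : H →* G),
    Function.Surjective α ∧ Function.Surjective β ∧ Function.Surjective φ ∧
      (∀ x, α x = 1 → β x = 1 → x = 1) ∧ Y P ∧ Z R

/-- range of a pair of homomorphisms lies in the formation -/
theorem range_mem {F : GroupClass} (hF : IsFormation F) {T P₁ P₂ : Type} [Group T] [Finite T]
    [Group P₁] [Group P₂] (a : T →* P₁) (b : T →* P₂) (ha : Function.Surjective a)
    (hb : Function.Surjective b) (h1 : F P₁) (h2 : F P₂) : F (a.prod b).range := by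
  haveI : Finite (a.prod b).range := Finite.of_surjective _ (a.prod b).rangeRestrict_surjective
  refine hF.subdirect_hom ((MonoidHom.fst P₁ P₂).comp (a.prod b).range.subtype)
    ((MonoidHom.snd P₁ P₂).comp (a.prod b).range.subtype) ?_ ?_ h1 h2 ?_
  · intro y
    obtain ⟨t, rfl⟩ := ha y
    exact ⟨⟨(a.prod b) t, ⟨t, rfl⟩⟩, rfl⟩
  · intro y
    obtain ⟨t, rfl⟩ := hb y
    exact ⟨⟨(a.prod b) t, ⟨t, rfl⟩⟩, rfl⟩
  · rintro ⟨⟨u, v⟩, hx⟩ hu hv
    have hu' : u = 1 := hu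
    have hv' : v = 1 := hv
    subst hu' hv'
    rfl

theorem desc_isFormation {Y Z : GroupClass} (hY : IsFormation Y) (hZ : IsFormation Z) :
    IsFormation (Desc Y Z) where
  finite := by
    rintro G _ ⟨H, _, _, P, _, R, _, α, β, φ, hα, hβ, hφ, hi, hP, hR⟩
    exact Finite.of_surjective φ hφ
  iso := by
    rintro G G' _ _ ⟨e⟩ ⟨H, _, _, P, _, R, _, α, β, φ, hα, hβ, hφ, hi, hP, hR⟩
    exact ⟨H, inferInstance, inferInstance, P, inferInstance, R, inferInstance, α, β,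
      e.toMonoidHom.comp φ, hα, hβ, e.surjective.comp hφ, hi, hP, hR⟩
  quotient := by
    rintro G _ N _ ⟨H, _, _, P, _, R, _, α, β, φ, hα, hβ, hφ, hi, hP, hR⟩
    exact ⟨H, inferInstance, inferInstance, P, inferInstance, R, inferInstance, α, β,
      (QuotientGroup.mk' N).comp φ, hα, hβ, (QuotientGroup.mk'_surjective N).comp hφ, hi, hP, hR⟩
  subdirect := by
    rintro K _ _ M N _ _ ⟨H₁, _, _, P₁, _, R₁, _, α₁, β₁, φ₁, hα₁, hβ₁, hφ₁, hi₁, hP₁, hR₁⟩
      ⟨H₂, _, _, P₂, _, R₂, _, α₂, β₂, φ₂, hα₂, hβ₂, hφ₂, hi₂, hP₂, hR₂⟩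
    let qM : (K ⧸ (M ⊓ N)) →* (K ⧸ M) :=
      QuotientGroup.map (M ⊓ N) M (MonoidHom.id K) (fun x hx => hx.1)
    let qN : (K ⧸ (M ⊓ N)) →* (K ⧸ N) :=
      QuotientGroup.map (M ⊓ N) N (MonoidHom.id K) (fun x hx => hx.2)
    have hqM : ∀ k : K, qM (QuotientGroup.mk k) = QuotientGroup.mk k := fun k => rfl
    have hqN : ∀ k : K, qN (QuotientGroup.mk k) = QuotientGroup.mk k := fun k => rfl
    have hq : ∀ l, qM l = 1 → qN l = 1 → l = 1 := by
      intro l h1 h2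
      obtain ⟨k, rfl⟩ := QuotientGroup.mk_surjective l
      rw [hqM, QuotientGroup.eq_one_iff] at h1
      rw [hqN, QuotientGroup.eq_one_iff] at h2
      exact (QuotientGroup.eq_one_iff k).2 ⟨h1, h2⟩
    let E₁ : (K ⧸ (M ⊓ N)) × (H₁ × H₂) →* (K ⧸ M) := qM.comp (MonoidHom.fst _ _)
    let T : Subgroup ((K ⧸ (M ⊓ N)) × (H₁ × H₂)) :=
      { carrier := {t | qM t.1 = φ₁ t.2.1 ∧ qN t.1 = φ₂ t.2.2}
        mul_mem' := by
          rintro ⟨a, b, c⟩ ⟨a', b', c'⟩ ⟨h1, h2⟩ ⟨h3, h4⟩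
          simp only [Set.mem_setOf_eq] at h1 h2 h3 h4 ⊢
          simp only [Prod.mk_mul_mk, map_mul, h1, h2, h3, h4, and_self]
        one_mem' := by
          simp only [Set.mem_setOf_eq, Prod.fst_one, Prod.snd_one, map_one, and_self]
        inv_mem' := by
          rintro ⟨a, b, c⟩ ⟨h1, h2⟩
          simp only [Set.mem_setOf_eq] at h1 h2 ⊢
          simp only [Prod.inv_mk, map_inv, h1, h2, and_self] }
    have hT : ∀ t : T, qM t.1.1 = φ₁ t.1.2.1 ∧ qN t.1.1 = φ₂ t.1.2.2 := fun t => t.2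
    let p₀ : T →* (K ⧸ (M ⊓ N)) := (MonoidHom.fst _ _).comp T.subtype
    let p₁ : T →* H₁ := ((MonoidHom.fst _ _).comp (MonoidHom.snd _ _)).comp T.subtype
    let p₂ : T →* H₂ := ((MonoidHom.snd _ _).comp (MonoidHom.snd _ _)).comp T.subtype
    have hp₀ : Function.Surjective p₀ := by
      intro l
      obtain ⟨h₁, e₁⟩ := hφ₁ (qM l)
      obtain ⟨h₂, e₂⟩ := hφ₂ (qN l)
      exact ⟨⟨(l, h₁, h₂), ⟨e₁.symm, e₂.symm⟩⟩, rfl⟩
    have hp₁ : Function.Surjective p₁ := by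
      intro h₁
      obtain ⟨k, hk⟩ := QuotientGroup.mk_surjective (φ₁ h₁)
      obtain ⟨h₂, e₂⟩ := hφ₂ (qN (QuotientGroup.mk k))
      exact ⟨⟨(QuotientGroup.mk k, h₁, h₂), ⟨(hqM k).trans hk, e₂.symm⟩⟩, rfl⟩
    have hp₂ : Function.Surjective p₂ := by
      intro h₂
      obtain ⟨k, hk⟩ := QuotientGroup.mk_surjective (φ₂ h₂)
      obtain ⟨h₁, e₁⟩ := hφ₁ (qM (QuotientGroup.mk k))
      exact ⟨⟨(QuotientGroup.mk k, h₁, h₂), ⟨e₁.symm, (hqN k).trans hk⟩⟩, rfl⟩
    refine ⟨T, inferInstance, inferInstance, _, inferInstance, _, inferInstance,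
      ((α₁.comp p₁).prod (α₂.comp p₂)).rangeRestrict,
      ((β₁.comp p₁).prod (β₂.comp p₂)).rangeRestrict, p₀,
      MonoidHom.rangeRestrict_surjective _, MonoidHom.rangeRestrict_surjective _, hp₀, ?_,
      range_mem hY _ _ (hα₁.comp hp₁) (hα₂.comp hp₂) hP₁ hP₂,
      range_mem hZ _ _ (hβ₁.comp hp₁) (hβ₂.comp hp₂) hR₁ hR₂⟩
    intro t ha hb
    have ha' : (α₁ (p₁ t), α₂ (p₂ t)) = 1 := congrArg Subtype.val ha
    have hb' : (β₁ (p₁ t), β₂ (p₂ t)) = 1 := congrArg Subtype.val hb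
    have e1 : p₁ t = 1 := hi₁ _ (congrArg Prod.fst ha') (congrArg Prod.fst hb')
    have e2 : p₂ t = 1 := hi₂ _ (congrArg Prod.snd ha') (congrArg Prod.snd hb')
    have e1' : t.1.2.1 = 1 := e1
    have e2' : t.1.2.2 = 1 := e2
    have e0 : t.1.1 = 1 := by
      apply hq
      · rw [(hT t).1, e1', map_one]
      · rw [(hT t).2, e2', map_one]
    apply Subtype.ext
    exact Prod.ext e0 (Prod.ext e1' e2')

theorem join_desc {Y Z : GroupClass} (hY : IsFormation Y) (hZ : IsFormation Z)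
    (hY1 : ∃ (A : Type) (_ : Group A), Y A) (hZ1 : ∃ (A : Type) (_ : Group A), Z A)
    {G : Type} [Group G] (h : Join Y Z G) :
    ∃ (H : Type) (_ : Group H) (_ : Finite H) (A B : Subgroup H) (_ : A.Normal) (_ : B.Normal)
      (φ : H →* G), Function.Surjective φ ∧ A ⊓ B = ⊥ ∧ Y (H ⧸ A) ∧ Z (H ⧸ B) := by
  obtain ⟨A₀, _, hA₀⟩ := hY1
  obtain ⟨B₀, _, hB₀⟩ := hZ1
  have hYD : Sub Y (Desc Y Z) := by
    intro K _ hK
    haveI := hY.finite K hK
    exact ⟨K, inferInstance, inferInstance, K, inferInstance, Unit, inferInstance,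
      MonoidHom.id K, 1, MonoidHom.id K, Function.surjective_id, fun _ => ⟨1, rfl⟩,
      Function.surjective_id, fun x hx _ => hx, hK, hZ.trivial_mem hB₀ (fun _ => rfl)⟩
  have hZD : Sub Z (Desc Y Z) := by
    intro K _ hK
    haveI := hZ.finite K hK
    exact ⟨K, inferInstance, inferInstance, Unit, inferInstance, K, inferInstance,
      1, MonoidHom.id K, MonoidHom.id K, fun _ => ⟨1, rfl⟩, Function.surjective_id,
      Function.surjective_id, fun x _ hx => hx, hY.trivial_mem hA₀ (fun _ => rfl), hK⟩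
  obtain ⟨H, _, _, P, _, R, _, α, β, φ, hα, hβ, hφ, hi, hP, hR⟩ :=
    h _ (desc_isFormation hY hZ) hYD hZD
  refine ⟨H, inferInstance, inferInstance, α.ker, β.ker, inferInstance, inferInstance, φ, hφ, ?_,
    hY.iso _ _ ⟨(QuotientGroup.quotientKerEquivOfSurjective α hα).symm⟩ hP,
    hZ.iso _ _ ⟨(QuotientGroup.quotientKerEquivOfSurjective β hβ).symm⟩ hR⟩
  rw [eq_bot_iff]
  intro x hx
  exact Subgroup.mem_bot.2 (hi x (MonoidHom.mem_ker.1 hx.1) (MonoidHom.mem_ker.1 hx.2))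

end Pool.Agent.Helper75.FL
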