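import Pool.Agent.Helper75.FL.Defs

set_option autoImplicit false
set_option linter.style.haveILetI false

/-! Definitions and first facts for the criterion of distributivity of the lattice of
subformations of a formation of finite groups. -/

namespace Pool.Agent.Helper75.FL



theorem qc_quot {Y : GroupClass} (hY : IsFormation Y) {H : Type} [Group H]
    (A T : Subgroup H) [A.Normal] [T.Normal] (A' : Subgroup (H ⧸ T)) [A'.Normal]
    (hAA' : A ≤ A'.comap (QuotientGroup.mk' T)) (hA : Y (H ⧸ A)) : Y ((H ⧸ T) ⧸ A') := by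
  refine hY.surj hA (QuotientGroup.map A A' (QuotientGroup.mk' T) hAA') ?_
  intro q
  obtain ⟨x, rfl⟩ := QuotientGroup.mk_surjective q
  obtain ⟨y, rfl⟩ := QuotientGroup.mk_surjective x
  exact ⟨(y : H ⧸ A), rfl⟩

/-- Passing to the quotient by a normal subgroup `T` of the kernel. -/
theorem quot_config {Y Z : GroupClass} (hY : IsFormation Y) (hZ : IsFormation Z)
    {H D : Type} [Group H] [Finite H] [Group D] (φ : H →* D) (hφ : Function.Surjective φ)
    (A B T : Subgroup H) [A.Normal] [B.Normal] [T.Normal] (hA : Y (H ⧸ A)) (hB : Z (H ⧸ B))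
    (hT : T ≤ φ.ker) (hT1 : (A ⊔ T) ⊓ (B ⊔ T) ≤ T) (hT2 : T ≠ ⊥) :
    ∃ (H' : Type) (_ : Group H') (_ : Finite H') (A' B' : Subgroup H') (_ : A'.Normal)
      (_ : B'.Normal) (φ' : H' →* D), Function.Surjective φ' ∧ A' ⊓ B' = ⊥ ∧ Y (H' ⧸ A') ∧
        Z (H' ⧸ B') ∧ Nat.card H' < Nat.card H := by
  have hnA : ((A ⊔ T).map (QuotientGroup.mk' T)).Normal :=
    Subgroup.Normal.map inferInstance _ (QuotientGroup.mk'_surjective T)
  have hnB : ((B ⊔ T).map (QuotientGroup.mk' T)).Normal :=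
    Subgroup.Normal.map inferInstance _ (QuotientGroup.mk'_surjective T)
  refine ⟨H ⧸ T, inferInstance, inferInstance, (A ⊔ T).map (QuotientGroup.mk' T),
    (B ⊔ T).map (QuotientGroup.mk' T), hnA, hnB,
    QuotientGroup.lift T φ (fun x hx => MonoidHom.mem_ker.mp (hT hx)), ?_, ?_, ?_, ?_, ?_⟩
  · intro d
    obtain ⟨x, rfl⟩ := hφ d
    exact ⟨(x : H ⧸ T), rfl⟩
  · rw [eq_bot_iff]
    rintro q ⟨⟨a, ha, rfl⟩, ⟨b, hb, hab⟩⟩
    have h1 : a⁻¹ * b ∈ T := by
      rw [← QuotientGroup.eq]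
      exact hab.symm
    have h2 : b ∈ A ⊔ T := by
      have h3 : a * (a⁻¹ * b) ∈ A ⊔ T :=
        Subgroup.mul_mem _ ha (Subgroup.mem_sup_right h1)
      rwa [mul_inv_cancel_left] at h3
    have h4 : b ∈ T := hT1 ⟨h2, hb⟩
    rw [Subgroup.mem_bot, ← hab]
    exact (QuotientGroup.eq_one_iff b).mpr h4
  · haveI := hnA
    refine qc_quot hY A T _ ?_ hA
    intro x hx
    exact Subgroup.mem_map_of_mem _ (Subgroup.mem_sup_left hx)
  · haveI := hnB
    refine qc_quot hZ B T _ ?_ hB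
    intro x hx
    exact Subgroup.mem_map_of_mem _ (Subgroup.mem_sup_left hx)
  · rw [Subgroup.card_eq_card_quotient_mul_card_subgroup T]
    have h1 : 1 < Nat.card T := (Subgroup.one_lt_card_iff_ne_bot T).mpr hT2
    have h2 : 0 < Nat.card (H ⧸ T) := Nat.card_pos
    exact lt_mul_of_one_lt_right h2 h1

end Pool.Agent.Helper75.FL
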