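import Pool.Agent.Helper75.FL.Defs

set_option autoImplicit false
set_option linter.style.haveILetI false

/-! Definitions and first facts for the criterion of distributivity of the lattice of
subformations of a formation of finite groups. -/

namespace Pool.Agent.Helper75.FL



theorem residual {Y : GroupClass} (hY : IsFormation Y) {H : Type} [Group H] [Finite H]
    (A : Subgroup H) [A.Normal] (hA : Y (H ⧸ A)) :
    ∃ (R : Subgroup H) (_ : R.Normal), Y (H ⧸ R) ∧
      ∀ (M : Subgroup H) (_ : M.Normal), Y (H ⧸ M) → R ≤ M := by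
  haveI : Finite (Subgroup H) := inferInstance
  have hwf : WellFounded ((· < ·) : Subgroup H → Subgroup H → Prop) := wellFounded_lt
  obtain ⟨R, ⟨hRn, hRY⟩, hmin⟩ := hwf.has_min {R : Subgroup H | ∃ _ : R.Normal, Y (H ⧸ R)}
    ⟨A, inferInstance, hA⟩
  refine ⟨R, hRn, hRY, ?_⟩
  intro M hM hMY
  have h1 : Y (H ⧸ (R ⊓ M)) := hY.subdirect H R M hRY hMY
  have h2 : ¬ (R ⊓ M < R) := hmin (R ⊓ M) ⟨inferInstance, h1⟩
  have h3 : R ⊓ M = R := by
    by_contra hne
    exact h2 (lt_of_le_of_ne inf_le_left hne)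
  exact inf_eq_left.1 h3

end Pool.Agent.Helper75.FL
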