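import Pool.Agent.Helper75.FL.Defs

set_option autoImplicit false
set_option linter.style.haveILetI false

/-! Definitions and first facts for the criterion of distributivity of the lattice of
subformations of a formation of finite groups. -/

namespace Pool.Agent.Helper75.FL



theorem two_compl_sup {H : Type} [Group H] {N U : Subgroup H}
    (hU : IsCoatom U) (h1 : ¬ N ≤ U) : U ⊔ N = ⊤ := by
  apply hU.2
  refine lt_of_le_of_ne le_sup_left ?_
  intro h
  exact h1 (h ▸ le_sup_right)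

theorem two_compl_dec {H : Type} [Group H] {N U : Subgroup H} [N.Normal]
    (h : U ⊔ N = ⊤) (g : H) : ∃ u ∈ U, ∃ n ∈ N, g = u * n := by
  have h1 : g ∈ ((U ⊔ N : Subgroup H) : Set H) := by rw [h]; trivial
  rw [Subgroup.mul_normal] at h1
  obtain ⟨u, hu, n, hn, h2⟩ := Set.mem_mul.1 h1
  exact ⟨u, hu, n, hn, h2.symm⟩

theorem two_compl_UN {H : Type} [Group H] {N N' U : Subgroup H} [N.Normal] [N'.Normal]
    (hN : IsMinimalNormal N) (hinf : N ⊓ N' = ⊥) (hU : IsCoatom U)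
    (h1 : ¬ N ≤ U) (h2 : ¬ N' ≤ U) : U ⊓ N = ⊥ := by
  by_contra hcon
  have hnorm : (U ⊓ N).Normal := by
    constructor
    intro x hx g
    obtain ⟨u, hu, n, hn, rfl⟩ := two_compl_dec (two_compl_sup hU h2) g
    have hc : Commute x n := Subgroup.commute_of_normal_of_disjoint N N' inferInstance
      inferInstance (disjoint_iff.2 hinf) x n hx.2 hn
    have h3 : u * n * x * (u * n)⁻¹ = u * x * u⁻¹ := by
      have h4 : n * x = x * n := hc.symm.eq
      rw [mul_assoc u n x, h4]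
      group
    rw [h3]
    exact ⟨U.mul_mem (U.mul_mem hu hx.1) (U.inv_mem hu),
      (inferInstance : N.Normal).conj_mem x hx.2 u⟩
  have h3 := hN.eq (U ⊓ N) hnorm hcon inf_le_right
  exact h1 (inf_eq_right.1 h3)

theorem two_compl_equiv {H : Type} [Group H] {N U : Subgroup H} [N.Normal]
    (hUN : U ⊓ N = ⊥) (hsup : U ⊔ N = ⊤) : Nonempty (U ≃* H ⧸ N) := by
  refine ⟨MulEquiv.ofBijective ((QuotientGroup.mk' N).comp U.subtype) ⟨?_, ?_⟩⟩
  · rw [injective_iff_map_eq_one]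
    intro u hu
    have h1 : (u : H) ∈ N := (QuotientGroup.eq_one_iff (u : H)).1 hu
    have h2 : (u : H) ∈ U ⊓ N := ⟨u.2, h1⟩
    rw [hUN, Subgroup.mem_bot] at h2
    exact Subtype.ext h2
  · intro x
    obtain ⟨g, rfl⟩ := QuotientGroup.mk'_surjective N x
    obtain ⟨u, hu, n, hn, rfl⟩ := two_compl_dec hsup g
    refine ⟨⟨u, hu⟩, ?_⟩
    rw [map_mul]
    have h3 : (QuotientGroup.mk' N) n = 1 := (QuotientGroup.eq_one_iff n).2 hn
    rw [h3, mul_one]
    rfl

theorem two_compl_form {H : Type} [Group H] [Finite H] {N N' : Subgroup H} [N.Normal] [N'.Normal]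
    (hinf : N ⊓ N' = ⊥) (e : Nonempty ((H ⧸ N) ≃* (H ⧸ N'))) : form (H ⧸ N) H := by
  intro E hE hG
  have h1 : E (H ⧸ N') := hE.iso _ _ e hG
  refine hE.subdirect_hom (QuotientGroup.mk' N) (QuotientGroup.mk' N')
    (QuotientGroup.mk'_surjective N) (QuotientGroup.mk'_surjective N') hG h1 ?_
  intro x hx hx'
  have h2 : x ∈ N ⊓ N' := ⟨(QuotientGroup.eq_one_iff x).1 hx, (QuotientGroup.eq_one_iff x).1 hx'⟩
  rwa [hinf, Subgroup.mem_bot] at h2

theorem two_compl {H : Type} [Group H] [Finite H] {N N' U : Subgroup H} [N.Normal] [N'.Normal]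
    (hN : IsMinimalNormal N) (hN' : IsMinimalNormal N') (hne : N ≠ N') (hU : IsCoatom U)
    (h1 : ¬ N ≤ U) (h2 : ¬ N' ≤ U) : form (H ⧸ N) H ∧ form (H ⧸ N') H := by
  have hinf : N ⊓ N' = ⊥ := by
    by_contra hcon
    have h3 := hN.eq (N ⊓ N') inferInstance hcon inf_le_left
    have h4 := hN'.eq (N ⊓ N') inferInstance hcon inf_le_right
    exact hne (h3.symm.trans h4)
  have hinf' : N' ⊓ N = ⊥ := by rw [inf_comm]; exact hinf
  obtain ⟨e⟩ := two_compl_equiv (two_compl_UN hN hinf hU h1 h2) (two_compl_sup hU h1)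
  obtain ⟨e'⟩ := two_compl_equiv (two_compl_UN hN' hinf' hU h2 h1) (two_compl_sup hU h2)
  exact ⟨two_compl_form hinf ⟨e.symm.trans e'⟩, two_compl_form hinf' ⟨e'.symm.trans e⟩⟩

end Pool.Agent.Helper75.FL
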